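import Pool.Agent.R928.FX.Step
import Pool.Agent.H507R3.RamAll

/-! The Ramsey lemma for coloured `p`-sets. -/

set_option autoImplicit false
set_option linter.all false

open Function Set

namespace Pool.Agent.R928.FX

theorem c0_unique {K : Type} {r p : ℕ} (hp : 1 ≤ p) {μ : Type} {M M' : μ} {t t' : Finset (Fin r) → K} {x x' : Finset (Fin r)}
    (hx : x.card = p)
    (h : (fun a => (M, (t, a))) '' (x : Set (Fin r)) = (fun a => (M', (t', a))) '' (x' : Set (Fin r))) : t x = t' x' := by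
  have hne : x.Nonempty := by rw [← Finset.card_pos]; omega
  obtain ⟨a, ha⟩ := hne
  have h1 : (M, (t, a)) ∈ (fun a => (M', (t', a))) '' (x' : Set (Fin r)) := h ▸ ⟨a, ha, rfl⟩
  obtain ⟨b, hb, hab⟩ := h1
  simp only [Prod.mk.injEq] at hab
  obtain ⟨rfl, rfl, rfl⟩ := hab
  have hinj : Injective (fun a : Fin r => (M', (t', a))) := fun a b hab => by
    simp only [Prod.mk.injEq] at hab; exact hab.2.2
  have := (image_injective.mpr hinj) h
  rw [Finset.coe_inj.mp this]

open Classical in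
/-- the colouring of the initial system -/
noncomputable def c0 (K : Type) (r p : ℕ) (μ : Type) (S : Set (μ × ((Finset (Fin r) → K) × Fin r))) : Option K :=
  if h : ∃ j, ∃ (M : μ) (t : Finset (Fin r) → K) (x : Finset (Fin r)), x.card = p ∧ t x = j ∧ (fun a => (M, (t, a))) '' (x : Set (Fin r)) = S
  then some h.choose else none

theorem c0_some {K : Type} {r p : ℕ} {μ : Type} {S : Set (μ × ((Finset (Fin r) → K) × Fin r))} {j : K} (h : c0 K r p μ S = some j) :
    ∃ (M : μ) (t : Finset (Fin r) → K) (x : Finset (Fin r)), x.card = p ∧ t x = j ∧ (fun a => (M, (t, a))) '' (x : Set (Fin r)) = S := by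
  unfold c0 at h
  split_ifs at h with hh
  rw [← Option.some.inj h]
  exact hh.choose_spec

theorem c0_eq {K : Type} {r p : ℕ} (hp : 1 ≤ p) {μ : Type} (M : μ) (t : Finset (Fin r) → K) (x : Finset (Fin r)) (hx : x.card = p) :
    c0 K r p μ ((fun a => (M, (t, a))) '' (x : Set (Fin r))) = some (t x) := by
  have hh : ∃ j, ∃ (M' : μ) (t' : Finset (Fin r) → K) (x' : Finset (Fin r)), x'.card = p ∧ t' x' = j ∧
      (fun a => (M', (t', a))) '' (x' : Set (Fin r)) = (fun a => (M, (t, a))) '' (x : Set (Fin r)) := ⟨t x, M, t, x, hx, rfl, rfl⟩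
  unfold c0
  rw [dif_pos hh]
  obtain ⟨M', t', x', hx', hj, hS⟩ := hh.choose_spec
  rw [← hj]
  exact congrArg some (c0_unique hp hx' hS)

/-- the initial system -/
noncomputable def P0 (K : Type) [Finite K] (r p N : ℕ) : Sys K p where
  V := {M : Finset ℕ // M ⊆ Finset.range N ∧ M.card = Nat.card ((Finset (Fin r) → K) × Fin r)} × ((Finset (Fin r) → K) × Fin r)
  fin := by
    have : Finite {M : Finset ℕ // M ⊆ Finset.range N ∧ M.card = Nat.card ((Finset (Fin r) → K) × Fin r)} :=
      Set.Finite.to_subtype ((Finset.range N).powerset.finite_toSet.subset fun M hM => by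
        simp only [Finset.coe_powerset, mem_preimage, mem_powerset_iff, Finset.coe_subset]; exact hM.1)
    infer_instance
  pr q := q.1.1.orderEmbOfFin q.1.2.2 (Finite.equivFin _ q.2)
  c := c0 K r p _
  inj := by
    intro S j h
    obtain ⟨M, t, x, hx, hj, rfl⟩ := c0_some h
    rintro _ ⟨a, ha, rfl⟩ _ ⟨b, hb, rfl⟩ hab
    have := (Finite.equivFin _).injective ((M.1.orderEmbOfFin M.2.2).injective hab)
    simp only [Prod.mk.injEq] at this
    rw [this.2]
  card := by
    intro S j h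
    obtain ⟨M, t, x, hx, hj, rfl⟩ := c0_some h
    rw [Set.ncard_image_of_injective, Set.ncard_coe_finset, hx]
    intro a b hab
    simp only [Prod.mk.injEq] at hab
    exact hab.2.2

/-- vertices of the initial system -/
def vtx {K : Type} [Finite K] {r p N : ℕ} (T : Finset ℕ) (hT : T ⊆ Finset.range N)
    (hTm : T.card = Nat.card ((Finset (Fin r) → K) × Fin r)) (t : Finset (Fin r) → K) (a : Fin r) : (P0 K r p N).V :=
  (⟨T, hT, hTm⟩, (t, a))

theorem vtx_inj {K : Type} [Finite K] {r p N : ℕ} (T : Finset ℕ) (hT : T ⊆ Finset.range N)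
    (hTm : T.card = Nat.card ((Finset (Fin r) → K) × Fin r)) (t : Finset (Fin r) → K) :
    Injective (vtx (p := p) T hT hTm t) := by
  intro a b hab
  unfold vtx at hab
  have h := (Prod.mk.injEq _ _ _ _).mp hab
  have h2 := (Prod.mk.injEq _ _ _ _).mp h.2
  exact h2.2

theorem vtx_pr_inj {K : Type} [Finite K] {r p N : ℕ} (T : Finset ℕ) (hT : T ⊆ Finset.range N)
    (hTm : T.card = Nat.card ((Finset (Fin r) → K) × Fin r)) (t : Finset (Fin r) → K) :
    Injective (fun a => (P0 K r p N).pr (vtx (p := p) T hT hTm t a)) := by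
  intro a b hab
  have := (Finite.equivFin _).injective ((T.orderEmbOfFin hTm).injective hab)
  exact ((Prod.mk.injEq _ _ _ _).mp this).2

theorem vtx_pr_mem {K : Type} [Finite K] {r p N : ℕ} (T : Finset ℕ) (hT : T ⊆ Finset.range N)
    (hTm : T.card = Nat.card ((Finset (Fin r) → K) × Fin r)) (t : Finset (Fin r) → K) (a : Fin r) :
    (P0 K r p N).pr (vtx (p := p) T hT hTm t a) ∈ T :=
  Finset.orderEmbOfFin_mem _ _ _

theorem vtx_c {K : Type} [Finite K] {r p N : ℕ} (hp : 1 ≤ p) (T : Finset ℕ) (hT : T ⊆ Finset.range N)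
    (hTm : T.card = Nat.card ((Finset (Fin r) → K) × Fin r)) (t : Finset (Fin r) → K) (x : Finset (Fin r)) (hx : x.card = p) :
    (P0 K r p N).c (vtx (p := p) T hT hTm t '' (x : Set (Fin r))) = some (t x) :=
  c0_eq hp (⟨T, hT, hTm⟩ : {M : Finset ℕ // M ⊆ Finset.range N ∧ M.card = Nat.card ((Finset (Fin r) → K) × Fin r)}) t x hx

/-- the Ramsey lemma -/
theorem lemB (p r : ℕ) (hp : 1 ≤ p) (K κ : Type) [Finite K] [Finite κ] [Nonempty κ] :
    ∃ (V : Type) (_ : Finite V) (c : Set V → Option K), (∀ S j, c S = some j → S.ncard = p) ∧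
      ∀ g : Set V → κ, ∃ h : K → κ, ∀ t : Finset (Fin r) → K, ∃ φ : Fin r → V, Injective φ ∧
        ∀ x : Finset (Fin r), x.card = p → c (φ '' x) = some (t x) ∧ g (φ '' x) = h (t x) := by
  classical
  have : Fintype (K → κ) := Fintype.ofFinite _
  obtain ⟨N, hN⟩ := H507R3.RamAll.ramsey_finset (K → κ) p (Nat.card ((Finset (Fin r) → K) × Fin r))
  have hfin : {q : Set ℕ × K | q.1 ⊆ (Finset.range N : Set ℕ)}.Finite := by
    have h1 : {A : Set ℕ | A ⊆ (Finset.range N : Set ℕ)}.Finite := (Finset.range N).finite_toSet.finite_subsets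
    exact (h1.prod (Set.finite_univ (α := K))).subset fun q hq => ⟨hq, trivial⟩
  obtain ⟨Q, hQ⟩ := iter hp κ hfin.toFinset.toList (P0 K r p N)
  refine ⟨Q.V, Q.fin, Q.c, Q.card, fun g => ?_⟩
  obtain ⟨f, hf, hL⟩ := hQ g
  have hL' : ∀ A : Finset ℕ, ∀ i : K, ∃ k, A ⊆ Finset.range N → ∀ S, (P0 K r p N).c S = some i →
      (P0 K r p N).pr '' S = A → g (f '' S) = k := by
    intro A i
    by_cases hA : A ⊆ Finset.range N
    · obtain ⟨k, hk⟩ := hL ((A : Set ℕ), i) (by
        rw [Finset.mem_toList, Set.Finite.mem_toFinset]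
        exact Finset.coe_subset.mpr hA)
      exact ⟨k, fun _ => hk⟩
    · exact ⟨Classical.arbitrary κ, fun h => absurd h hA⟩
  choose col hcol using hL'
  obtain ⟨T, hT, hTm, h, hh⟩ := hN (Finset.range N) col (by rw [Finset.card_range])
  refine ⟨h, fun t => ⟨f ∘ vtx T hT hTm t, hf.inj.comp (vtx_inj T hT hTm t), ?_⟩⟩
  intro x hx
  have hc := vtx_c (p := p) hp T hT hTm t x hx
  rw [image_comp]
  refine ⟨hf.c _ _ hc, ?_⟩
  obtain ⟨A, hAdef⟩ : ∃ A : Finset ℕ, A = x.image (fun a => (P0 K r p N).pr (vtx T hT hTm t a)) := ⟨_, rfl⟩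
  have hAT : A ⊆ T := by
    intro b hb
    rw [hAdef, Finset.mem_image] at hb
    obtain ⟨a, _, rfl⟩ := hb
    exact vtx_pr_mem T hT hTm t a
  have hAcard : A.card = p := by
    rw [hAdef, Finset.card_image_of_injective _ (vtx_pr_inj T hT hTm t), hx]
  rw [hcol A (t x) (hAT.trans hT) _ hc (by rw [hAdef, Finset.coe_image, image_image]), hh A hAT hAcard]

end Pool.Agent.R928.FX
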