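import Pool.Agent.R928.FX.Sys

/-! One step and the iteration. -/

set_option autoImplicit false
set_option linter.all false

open Function Set

namespace Pool.Agent.R928.FX

variable {K : Type} {p : ℕ}

instance finLine {α ι : Type} [Finite α] [Finite ι] : Finite (Combinatorics.Line α ι) :=
  Finite.of_injective (fun l : Combinatorics.Line α ι => l.idxFun) fun l l' h => by
    cases l; cases l'; simp only at h; subst h; rfl

open Classical in
/-- the colouring of the amalgam -/
noncomputable def amc (P : Sys K p) (A : Set ℕ) (i : K) [Nonempty P.V] (ι : Type)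
    (S' : Set ((ι → P.V) ⊕ (Combinatorics.Line (Ei P A i) ι × P.V))) : Option K :=
  if h : ∃ j, ∃ (l : Combinatorics.Line (Ei P A i) ι) (S : Set P.V), P.c S = some j ∧ emb P A i l '' S = S'
  then some h.choose else none

theorem amc_some {P : Sys K p} {A : Set ℕ} {i : K} [Nonempty P.V] {ι : Type}
    {S' : Set ((ι → P.V) ⊕ (Combinatorics.Line (Ei P A i) ι × P.V))} {j : K} (h : amc P A i ι S' = some j) :
    ∃ (l : Combinatorics.Line (Ei P A i) ι) (S : Set P.V), P.c S = some j ∧ emb P A i l '' S = S' := by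
  unfold amc at h
  split_ifs at h with hh
  rw [← Option.some.inj h]
  exact hh.choose_spec

theorem amc_emb {P : Sys K p} {A : Set ℕ} {i : K} [Nonempty P.V] {ι : Type} (hA : A.ncard = p) (hAf : A.Finite)
    (l : Combinatorics.Line (Ei P A i) ι) {S : Set P.V} {j : K} (hS : P.c S = some j) :
    amc P A i ι (emb P A i l '' S) = some j := by
  have hh : ∃ j, ∃ (l' : Combinatorics.Line (Ei P A i) ι) (T : Set P.V), P.c T = some j ∧ emb P A i l' '' T = emb P A i l '' S :=
    ⟨j, l, S, hS, rfl⟩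
  unfold amc
  rw [dif_pos hh]
  obtain ⟨l', T, hT, hTS⟩ := hh.choose_spec
  exact congrArg some (unique_color P A i hA hAf hT hS hTS)

/-- the amalgam -/
noncomputable def am (P : Sys K p) (A : Set ℕ) (i : K) [Nonempty P.V] (ι : Type) [Finite ι] (k0 : ι) : Sys K p where
  V := (ι → P.V) ⊕ (Combinatorics.Line (Ei P A i) ι × P.V)
  fin := by
    have := P.fin
    infer_instance
  pr := Sum.elim (fun w => P.pr (w k0)) (fun q => P.pr q.2)
  c := amc P A i ι
  inj := by
    intro S' j h
    obtain ⟨l, S, hS, rfl⟩ := amc_some h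
    rintro _ ⟨x, hx, rfl⟩ _ ⟨y, hy, rfl⟩ hxy
    have hpr : ∀ x, Sum.elim (fun w : ι → P.V => P.pr (w k0)) (fun q : Combinatorics.Line (Ei P A i) ι × P.V => P.pr q.2) (emb P A i l x) = P.pr x := by
      intro x
      by_cases h : P.pr x ∈ A
      · rw [emb_inl P A i h]; exact word_pr P A i h k0
      · rw [emb_inr P A i h]; rfl
    rw [hpr, hpr] at hxy
    rw [P.inj S j hS hx hy hxy]
  card := by
    intro S' j h
    obtain ⟨l, S, hS, rfl⟩ := amc_some h
    rw [Set.ncard_image_of_injective _ (emb_injective P A i l)]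
    exact P.card S j hS

theorem am_emb (P : Sys K p) (A : Set ℕ) (i : K) [Nonempty P.V] (ι : Type) [Finite ι] (k0 : ι) (hA : A.ncard = p) (hAf : A.Finite)
    (l : Combinatorics.Line (Ei P A i) ι) : IsEmb P (am P A i ι k0) (emb P A i l) where
  inj := emb_injective P A i l
  pr x := by
    by_cases h : P.pr x ∈ A
    · rw [emb_inl P A i h]; exact word_pr P A i h k0
    · rw [emb_inr P A i h]; rfl
  c S j hS := amc_emb hA hAf l hS

theorem emb_image (P : Sys K p) (A : Set ℕ) (i : K) [Nonempty P.V] {ι : Type} (l : Combinatorics.Line (Ei P A i) ι)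
    (S : Set P.V) (hS : P.c S = some i) (hSA : P.pr '' S = A) :
    emb P A i l '' S = (fun a => (Sum.inl (fun q => vert P (l ⟨S, hS, hSA⟩ q).1 a) :
      (ι → P.V) ⊕ (Combinatorics.Line (Ei P A i) ι × P.V))) '' A := by
  obtain ⟨F, hF⟩ : ∃ F : ℕ → (ι → P.V) ⊕ (Combinatorics.Line (Ei P A i) ι × P.V),
      F = fun a => Sum.inl (fun q => vert P (l ⟨S, hS, hSA⟩ q).1 a) := ⟨_, rfl⟩
  have h1 : ∀ x ∈ S, emb P A i l x = F (P.pr x) := by
    intro x hx
    have hxA : P.pr x ∈ A := hSA ▸ mem_image_of_mem _ hx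
    rw [emb_inl P A i hxA, hF]
    show Sum.inl _ = Sum.inl _
    congr 1
    funext q
    cases hq : l.idxFun q with
    | none =>
      rw [word_none P A i hq, Combinatorics.Line.apply_none _ _ _ hq]
      exact (vert_pr P hS hx).symm
    | some e => rw [word_some P A i hq, Combinatorics.Line.apply_some hq]
  have h3 : F '' (P.pr '' S) = F '' A := congrArg (fun B => F '' B) hSA
  rw [image_congr h1, ← hF, ← h3, image_image]

/-- one step of the partite construction -/
theorem step (hp : 1 ≤ p) (P : Sys K p) (A : Set ℕ) (i : K) (κ : Type) [Finite κ] [Nonempty κ] :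
    ∃ Q : Sys K p, ∀ g : Set Q.V → κ, ∃ f, IsEmb P Q f ∧ ∃ k, ∀ S, P.c S = some i → P.pr '' S = A → g (f '' S) = k := by
  by_cases hE : Nonempty (Ei P A i)
  · obtain ⟨e0, he0, he0A⟩ := hE
    have hA : A.ncard = p := by
      rw [← he0A, Set.ncard_image_of_injOn (P.inj e0 i he0), P.card e0 i he0]
    have hAf : A.Finite := by
      apply Set.finite_of_ncard_pos
      omega
    have hne : Nonempty P.V := by
      have : e0.Nonempty := by
        rw [Set.nonempty_iff_ne_empty]
        rintro rfl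
        have := P.card ∅ i he0
        rw [Set.ncard_empty] at this
        omega
      exact ⟨this.choose⟩
    obtain ⟨ι, hι, hHJ⟩ := Combinatorics.Line.exists_mono_in_high_dimension (Ei P A i) κ
    obtain ⟨l0, _⟩ := hHJ fun _ => Classical.arbitrary κ
    refine ⟨am P A i ι l0.proper.choose, fun g => ?_⟩
    obtain ⟨l, k, hk⟩ := hHJ fun z => g ((fun a => (Sum.inl (fun q => vert P (z q).1 a) :
      (ι → P.V) ⊕ (Combinatorics.Line (Ei P A i) ι × P.V))) '' A)
    refine ⟨emb P A i l, am_emb P A i ι _ hA hAf l, k, fun S hS hSA => ?_⟩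
    rw [← hk ⟨S, hS, hSA⟩]
    exact congrArg g (emb_image P A i l S hS hSA)
  · refine ⟨P, fun g => ⟨id, IsEmb.id P, Classical.arbitrary κ, fun S hS hSA => ?_⟩⟩
    exact absurd ⟨⟨S, hS, hSA⟩⟩ hE

theorem iter (hp : 1 ≤ p) (κ : Type) [Finite κ] [Nonempty κ] (L : List (Set ℕ × K)) : ∀ P : Sys K p,
    ∃ Q : Sys K p, ∀ g : Set Q.V → κ, ∃ f, IsEmb P Q f ∧
      ∀ q ∈ L, ∃ k, ∀ S, P.c S = some q.2 → P.pr '' S = q.1 → g (f '' S) = k := by
  induction L with
  | nil => exact fun P => ⟨P, fun g => ⟨id, IsEmb.id P, fun q hq => absurd hq (by simp)⟩⟩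
  | cons q L ih =>
    intro P
    obtain ⟨P1, h1⟩ := step hp P q.1 q.2 κ
    obtain ⟨P2, h2⟩ := ih P1
    refine ⟨P2, fun g => ?_⟩
    obtain ⟨f2, hf2, hg2⟩ := h2 g
    obtain ⟨f1, hf1, k1, hk1⟩ := h1 fun S => g (f2 '' S)
    refine ⟨f2 ∘ f1, hf2.comp hf1, fun q' hq' => ?_⟩
    rcases List.mem_cons.mp hq' with rfl | hq'
    · exact ⟨k1, fun S hS hSA => by rw [image_comp]; exact hk1 S hS hSA⟩
    · obtain ⟨k, hk⟩ := hg2 q' hq'
      exact ⟨k, fun S hS hSA => by rw [image_comp]; exact hk _ (hf1.c _ _ hS) (by rw [hf1.pr_image]; exact hSA)⟩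

end Pool.Agent.R928.FX
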