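import Mathlib

/-! The partite construction for coloured `p`-sets. -/

set_option autoImplicit false
set_option linter.all false

open Function Set

namespace Pool.Agent.R928.FX

/-- a system: finite vertex set, projection to `ℕ`, partial colouring of the `p`-sets -/
structure Sys (K : Type) (p : ℕ) : Type 1 where
  V : Type
  fin : Finite V
  pr : V → ℕ
  c : Set V → Option K
  inj : ∀ S j, c S = some j → Set.InjOn pr S
  card : ∀ S j, c S = some j → S.ncard = p

/-- embeddings of systems -/
structure IsEmb {K : Type} {p : ℕ} (P Q : Sys K p) (f : P.V → Q.V) : Prop where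
  inj : Injective f
  pr : ∀ x, Q.pr (f x) = P.pr x
  c : ∀ S j, P.c S = some j → Q.c (f '' S) = some j

theorem IsEmb.id {K : Type} {p : ℕ} (P : Sys K p) : IsEmb P P id :=
  ⟨injective_id, fun _ => rfl, fun S j h => by rw [image_id]; exact h⟩

theorem IsEmb.comp {K : Type} {p : ℕ} {P Q R : Sys K p} {g : Q.V → R.V} {f : P.V → Q.V} (hg : IsEmb Q R g) (hf : IsEmb P Q f) :
    IsEmb P R (g ∘ f) :=
  ⟨hg.inj.comp hf.inj, fun x => by rw [comp_apply, hg.pr, hf.pr], fun S j h => by rw [image_comp]; exact hg.c _ _ (hf.c _ _ h)⟩

theorem IsEmb.pr_image {K : Type} {p : ℕ} {P Q : Sys K p} {f : P.V → Q.V} (hf : IsEmb P Q f) (S : Set P.V) :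
    Q.pr '' (f '' S) = P.pr '' S := by
  rw [image_image]
  exact image_congr fun x _ => hf.pr x

section step

variable {K : Type} {p : ℕ} (P : Sys K p) (A : Set ℕ) (i : K)

/-- the sets of colour `i` over `A` -/
abbrev Ei : Type := {S : Set P.V // P.c S = some i ∧ P.pr '' S = A}

instance instFinV : Finite P.V := P.fin

variable [Nonempty P.V] {ι : Type}

/-- the vertex of `e` over `a` -/
noncomputable def vert (e : Set P.V) (a : ℕ) : P.V := invFunOn P.pr e a

theorem vert_mem {e : Set P.V} {a : ℕ} (he : P.pr '' e = A) (ha : a ∈ A) : vert P e a ∈ e ∧ P.pr (vert P e a) = a := by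
  rw [← he] at ha
  exact invFunOn_pos ha

theorem vert_pr {e : Set P.V} {j : K} (he : P.c e = some j) {x : P.V} (hx : x ∈ e) : vert P e (P.pr x) = x :=
  (P.inj e j he).leftInvOn_invFunOn hx

theorem vert_image {e : Set P.V} (he : P.pr '' e = A) {j : K} (hj : P.c e = some j) : vert P e '' A = e := by
  ext x
  constructor
  · rintro ⟨a, ha, rfl⟩
    exact (vert_mem P A he ha).1
  · intro hx
    exact ⟨P.pr x, he ▸ mem_image_of_mem _ hx, vert_pr P hj hx⟩

/-- the word of a vertex along a line -/
noncomputable def word (l : Combinatorics.Line (Ei P A i) ι) (x : P.V) (k : ι) : P.V :=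
  match l.idxFun k with
  | none => x
  | some e => vert P e.1 (P.pr x)

theorem word_none {l : Combinatorics.Line (Ei P A i) ι} {x : P.V} {k : ι} (h : l.idxFun k = none) : word P A i l x k = x := by
  unfold word; rw [h]

theorem word_some {l : Combinatorics.Line (Ei P A i) ι} {x : P.V} {k : ι} {e : Ei P A i} (h : l.idxFun k = some e) :
    word P A i l x k = vert P e.1 (P.pr x) := by
  unfold word; rw [h]

theorem word_pr {l : Combinatorics.Line (Ei P A i) ι} {x : P.V} (hx : P.pr x ∈ A) (k : ι) : P.pr (word P A i l x k) = P.pr x := by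
  cases h : l.idxFun k with
  | none => rw [word_none P A i h]
  | some e => rw [word_some P A i h]; exact (vert_mem P A e.2.2 hx).2

open Classical in
/-- the embedding along a line -/
noncomputable def emb (l : Combinatorics.Line (Ei P A i) ι) (x : P.V) : (ι → P.V) ⊕ (Combinatorics.Line (Ei P A i) ι × P.V) :=
  if P.pr x ∈ A then Sum.inl (word P A i l x) else Sum.inr (l, x)

theorem emb_inl {l : Combinatorics.Line (Ei P A i) ι} {x : P.V} (hx : P.pr x ∈ A) : emb P A i l x = Sum.inl (word P A i l x) := by
  unfold emb; rw [if_pos hx]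

theorem emb_inr {l : Combinatorics.Line (Ei P A i) ι} {x : P.V} (hx : P.pr x ∉ A) : emb P A i l x = Sum.inr (l, x) := by
  unfold emb; rw [if_neg hx]

theorem emb_injective (l : Combinatorics.Line (Ei P A i) ι) : Injective (emb P A i l) := by
  intro x y h
  by_cases hx : P.pr x ∈ A <;> by_cases hy : P.pr y ∈ A
  · rw [emb_inl P A i hx, emb_inl P A i hy, Sum.inl.injEq] at h
    obtain ⟨k, hk⟩ := l.proper
    have := congrFun h k
    rwa [word_none P A i hk, word_none P A i hk] at this
  · rw [emb_inl P A i hx, emb_inr P A i hy] at h; exact absurd h (by simp)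
  · rw [emb_inr P A i hx, emb_inl P A i hy] at h; exact absurd h (by simp)
  · rw [emb_inr P A i hx, emb_inr P A i hy, Sum.inr.injEq, Prod.mk.injEq] at h
    exact h.2

/-- well-definedness of the colouring -/
theorem unique_color (hA : A.ncard = p) (hAf : A.Finite) {l l' : Combinatorics.Line (Ei P A i) ι} {S T : Set P.V} {j j' : K}
    (hS : P.c S = some j) (hT : P.c T = some j') (h : emb P A i l '' S = emb P A i l' '' T) : j = j' := by
  by_cases hSA : ∀ x ∈ S, P.pr x ∈ A
  · have hTA : ∀ y ∈ T, P.pr y ∈ A := by
      intro y hy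
      by_contra hcon
      have h1 : emb P A i l' y ∈ emb P A i l '' S := h ▸ mem_image_of_mem _ hy
      obtain ⟨x, hx, hxy⟩ := h1
      rw [emb_inr P A i hcon, emb_inl P A i (hSA x hx)] at hxy
      exact absurd hxy (by simp)
    have hover : ∀ (U : Set P.V) (q : K), P.c U = some q → (∀ x ∈ U, P.pr x ∈ A) → P.pr '' U = A := by
      intro U q hU hUA
      apply Set.eq_of_subset_of_ncard_le _ _ hAf
      · rintro _ ⟨x, hx, rfl⟩; exact hUA x hx
      · rw [Set.ncard_image_of_injOn (P.inj U q hU), P.card U q hU, hA]
    have hSo := hover S j hS hSA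
    have hTo := hover T j' hT hTA
    -- entries
    have hent : ∀ k, (fun x => word P A i l x k) '' S = (fun x => word P A i l' x k) '' T := by
      intro k
      have haux : ∀ (m : Combinatorics.Line (Ei P A i) ι) (U : Set P.V), (∀ x ∈ U, P.pr x ∈ A) →
          (fun x => word P A i m x k) '' U = {y | ∃ w : ι → P.V, Sum.inl w ∈ emb P A i m '' U ∧ w k = y} := by
        intro m U hU
        ext y
        constructor
        · rintro ⟨x, hx, rfl⟩
          exact ⟨word P A i m x, ⟨x, hx, emb_inl P A i (hU x hx)⟩, rfl⟩
        · rintro ⟨w, ⟨x, hx, hxw⟩, rfl⟩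
          rw [emb_inl P A i (hU x hx), Sum.inl.injEq] at hxw
          exact ⟨x, hx, by rw [← hxw]⟩
      rw [haux l S hSA, haux l' T hTA, h]
    have hact : ∀ (m : Combinatorics.Line (Ei P A i) ι) (U : Set P.V) (k : ι), m.idxFun k = none →
        (fun x => word P A i m x k) '' U = U := by
      intro m U k hk
      have : (fun x => word P A i m x k) = id := by
        funext x; exact word_none P A i hk
      rw [this, image_id]
    have hcon : ∀ (m : Combinatorics.Line (Ei P A i) ι) (U : Set P.V) (k : ι) (e : Ei P A i), m.idxFun k = some e → P.pr '' U = A →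
        (fun x => word P A i m x k) '' U = e.1 := by
      intro m U k e hk hU
      have : (fun x => word P A i m x k) = fun x => vert P e.1 (P.pr x) := by
        funext x; exact word_some P A i hk
      rw [this, ← image_image, hU, vert_image P A e.2.2 e.2.1]
    obtain ⟨k, hk⟩ := l.proper
    obtain ⟨k', hk'⟩ := l'.proper
    have e1 := hent k
    rw [hact l S k hk] at e1
    have e2 := hent k'
    rw [hact l' T k' hk'] at e2
    cases h1 : l'.idxFun k with
    | none =>
      rw [hact l' T k h1] at e1
      rw [e1, hT] at hS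
      exact (Option.some.inj hS).symm
    | some e =>
      rw [hcon l' T k e h1 hTo] at e1
      rw [e1, e.2.1] at hS
      have hji : i = j := Option.some.inj hS
      cases h2 : l.idxFun k' with
      | none =>
        rw [hact l S k' h2] at e2
        rw [← e2, e1, e.2.1] at hT
        rw [← hji]
        exact Option.some.inj hT
      | some e' =>
        rw [hcon l S k' e' h2 hSo] at e2
        rw [← e2, e'.2.1] at hT
        rw [← hji]
        exact Option.some.inj hT
  · push Not at hSA
    obtain ⟨x, hx, hxA⟩ := hSA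
    have h1 : emb P A i l x ∈ emb P A i l' '' T := h ▸ mem_image_of_mem _ hx
    obtain ⟨y, hy, hyx⟩ := h1
    have hyA : P.pr y ∉ A := by
      intro hyA
      rw [emb_inr P A i hxA, emb_inl P A i hyA] at hyx
      exact absurd hyx (by simp)
    rw [emb_inr P A i hxA, emb_inr P A i hyA, Sum.inr.injEq, Prod.mk.injEq] at hyx
    rw [hyx.1] at h
    have hST : S = T := (image_injective.mpr (emb_injective P A i l)) h
    rw [hST, hT] at hS
    exact (Option.some.inj hS).symm

end step

end Pool.Agent.R928.FX
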